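import Pool.Agent.H20.UV.PARMU0

/-! # Unified programs: choice of the parameters (row PARMU of board uvp_modules, helper20) -/

namespace Pool.Agent.H20.UV

open Finset Matrix Pool.Agent.H91.UV
open Pool.Agent.H1.LP (Clause viol supp ip kk)
open Pool.Agent.H70.UN (PosFam ERR E1 T_FAMU T_LASF)

theorem pf_PARMU (h : S_E1B) : S_PARMU := by
  intro C ε hε
  obtain ⟨ε₁, hε₁0, hε₁ε, hε₁4⟩ : ∃ ε₁ : ℝ, 0 < ε₁ ∧ ε₁ ≤ ε ∧ ε₁ ≤ 1 / 4 :=
    ⟨min ε (1 / 4), lt_min hε (by norm_num), min_le_left _ _, min_le_right _ _⟩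
  -- the exponent `e = 2 ^ (-j)`
  obtain ⟨j, hj⟩ : ∃ j : ℕ, (|C| + 2) * (2 : ℝ)⁻¹ ^ j ≤ ε₁ / 8 := by
    have h1 : Filter.Tendsto (fun j : ℕ => (|C| + 2) * (2 : ℝ)⁻¹ ^ j) Filter.atTop
        (nhds ((|C| + 2) * 0)) :=
      (tendsto_pow_atTop_nhds_zero_of_lt_one (by norm_num) (by norm_num)).const_mul _
    rw [mul_zero] at h1
    obtain ⟨j, hj⟩ := (h1.eventually_lt_const (show (0 : ℝ) < ε₁ / 8 by positivity)).exists
    exact ⟨j, hj.le⟩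
  obtain ⟨e, he⟩ : ∃ e : ℝ, e = (2 : ℝ)⁻¹ ^ j := ⟨_, rfl⟩
  rw [← he] at hj
  have he0 : 0 < e := by rw [he]; positivity
  have he64 : e ≤ 1 / 64 := by
    have : 2 * e ≤ (|C| + 2) * e :=
      mul_le_mul_of_nonneg_right (by linarith [abs_nonneg C]) he0.le
    linarith
  obtain ⟨E0, hE0⟩ : ∃ E : ℕ, 86 / ε₁ ≤ E := exists_nat_ge _
  obtain ⟨E, hEdef⟩ : ∃ E : ℕ, E = E0 + j := ⟨_, rfl⟩
  have hεE : 86 ≤ ε₁ * E := by
    have h1 : (E0 : ℝ) ≤ E := by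
      have : E0 ≤ E := by omega
      exact_mod_cast this
    have h2 : 86 / ε₁ ≤ E := hE0.trans h1
    rw [div_le_iff₀ hε₁0] at h2
    linarith
  have hE33r : (33 : ℝ) ≤ E := by
    have : ε₁ * (E : ℝ) ≤ 1 / 4 * E := mul_le_mul_of_nonneg_right hε₁4 (Nat.cast_nonneg _)
    linarith
  have hE33 : 33 ≤ E := by exact_mod_cast hE33r
  have hjE : j ≤ E := by omega
  obtain ⟨b, hb⟩ : ∃ b : ℕ, b = (4 * E + 1) * (E + 1) := ⟨_, rfl⟩
  have hb1 : 1 ≤ b := by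
    rw [hb]; exact Nat.one_le_iff_ne_zero.2 (by positivity)
  have hb1r : (1 : ℝ) ≤ b := by exact_mod_cast hb1
  have hbr : (b : ℝ) = (4 * E + 1) * (E + 1) := by rw [hb]; push_cast; ring
  obtain ⟨K, hK⟩ : ∃ K : ℕ, K = 4 * E * 2 ^ (b * kk E) := ⟨_, rfl⟩
  have hK1 : 1 ≤ K := by
    rw [hK]; exact Nat.one_le_iff_ne_zero.2 (by positivity)
  have hE0' : (0 : ℝ) < E := by linarith
  obtain ⟨γ, hγ⟩ : ∃ γ : ℝ, γ = ε₁ / (16 * b) := ⟨_, rfl⟩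
  have hγ0 : 0 < γ := by rw [hγ]; positivity
  have hγ1 : γ ≤ ε₁ / 16 := by
    rw [hγ]
    apply div_le_div_of_nonneg_left hε₁0.le (by norm_num)
    linarith
  have hγb : γ * b = ε₁ / 16 := by
    rw [hγ]
    field_simp
  refine ⟨E, E, K, γ, e, by omega, by omega, he0, by linarith, ?_, hγ0, ?_⟩
  · rw [div_le_iff₀ hE0']
    have : ε₁ * (E : ℝ) ≤ ε * E := mul_le_mul_of_nonneg_right hε₁ε hE0'.le
    linarith
  refine ⟨b * (8064 * K + b + (4 * E + 1) * E * kk E + 2 * kk E + 16), fun n hn => ?_⟩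
  obtain ⟨B, hB⟩ : ∃ B : ℕ, B = n / b := ⟨_, rfl⟩
  have hBn : B * b ≤ n := by rw [hB]; exact Nat.div_mul_le_self n b
  have hBge : 8064 * K + b + (4 * E + 1) * E * kk E + 2 * kk E + 16 ≤ B := by
    rw [hB, Nat.le_div_iff_mul_le (by omega), mul_comm]
    exact hn
  have hBn' : B ≤ n := le_trans (Nat.le_mul_of_pos_right _ (by omega)) hBn
  have hnB : n < b * (B + 1) := by
    rw [hB]
    exact Nat.lt_mul_div_succ n hb1
  have hNC : NC E E B = K * B := by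
    rw [NC, ← hb, hK]; ring
  obtain ⟨M1, hM1⟩ : ∃ M1 : ℕ, M1 = 3 * (K * B) + 1 := ⟨_, rfl⟩
  have hM1r : (M1 : ℝ) = 3 * ((K * B : ℕ) : ℝ) + 1 := by rw [hM1]; push_cast; ring
  have hM11 : (1 : ℝ) ≤ M1 := by
    have : 1 ≤ M1 := by omega
    exact_mod_cast this
  -- the polynomial factor
  have hpoly : (M1 : ℝ) ≤ (2 : ℝ) ^ ((B : ℝ) / 16) := by
    obtain ⟨s, hs⟩ : ∃ s : ℕ, s = B / 32 := ⟨_, rfl⟩
    have hs1 : 252 * K ≤ s := by omega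
    have hs2 : B ≤ 32 * s + 31 := by omega
    have hs3 : s < 2 ^ s := Nat.lt_two_pow_self
    have hs4 : 32 * s ≤ B := by omega
    have hB63 : B ≤ 63 * 2 ^ s := by omega
    have c1 : M1 ≤ 2 ^ (2 * s) := by
      have hKB : 1 ≤ K * B := Nat.mul_pos hK1 (by omega)
      calc M1 ≤ 4 * (K * B) := by omega
        _ ≤ 4 * (K * (63 * 2 ^ s)) := by gcongr
        _ = 252 * K * 2 ^ s := by ring
        _ ≤ 2 ^ s * 2 ^ s := Nat.mul_le_mul_right _ (by omega)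
        _ = 2 ^ (2 * s) := by rw [← pow_add]; congr 1; ring
    calc (M1 : ℝ) ≤ ((2 ^ (2 * s) : ℕ) : ℝ) := by exact_mod_cast c1
      _ = (2 : ℝ) ^ (2 * (s : ℝ)) := by
        rw [← Nat.cast_ofNat, ← Nat.cast_ofNat (n := 2)]
        push_cast
        rw [← Real.rpow_natCast]
        push_cast
        rfl
      _ ≤ (2 : ℝ) ^ ((B : ℝ) / 16) := by
        apply Real.rpow_le_rpow_of_exponent_le one_le_two
        have : (32 : ℝ) * s ≤ B := by exact_mod_cast hs4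
        linarith
  obtain ⟨LAM, hLAM⟩ : ∃ LAM : ℝ, LAM = 2 * (M1 : ℝ) * (2 : ℝ) ^ (|C| * n) *
    (2 : ℝ) ^ (γ * n) := ⟨_, rfl⟩
  have hLAM0 : 0 < LAM := by rw [hLAM]; positivity
  refine ⟨B, LAM, by omega, by rw [← hb]; exact hBn, ?_, ?_, ?_, ?_⟩
  · rw [hNC]
    exact Nat.mul_le_mul_left _ hBn'
  · have q1 : (1 : ℝ) ≤ (2 : ℝ) ^ (|C| * n) :=
      Real.one_le_rpow one_le_two (by positivity)
    have q2 : (1 : ℝ) ≤ (2 : ℝ) ^ (γ * n) :=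
      Real.one_le_rpow one_le_two (by positivity)
    rw [hLAM]
    calc (1 : ℝ) = 1 * 1 * 1 := by norm_num
      _ ≤ 2 * (M1 : ℝ) * (2 : ℝ) ^ (|C| * n) * (2 : ℝ) ^ (γ * n) := by
        apply mul_le_mul _ q2 (by norm_num) (by positivity)
        apply mul_le_mul _ q1 (by norm_num) (by positivity)
        linarith
  · rw [hLAM, hNC, ← hM1r]
    have : (2 : ℝ) ^ (C * n) ≤ (2 : ℝ) ^ (|C| * n) := by
      apply Real.rpow_le_rpow_of_exponent_le one_le_two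
      exact mul_le_mul_of_nonneg_right (le_abs_self C) (Nat.cast_nonneg _)
    gcongr
  intro p hp1 hp2
  obtain ⟨d, hd⟩ : ∃ d : ℕ, d = B - 8 * (B / E) - kk E := ⟨_, rfl⟩
  have hdB : d ≤ B := by omega
  rw [← hd, hNC, ← hM1r]
  obtain ⟨R, hR⟩ : ∃ R : ℝ, R = (M1 : ℝ) * (2 : ℝ) ^ ((1 - ε) * n) := ⟨_, rfl⟩
  have hR0 : 0 < R := by rw [hR]; positivity
  rw [← hR]
  have hX := h E E B d p e LAM R (by omega) (by omega) hdB he0 (by linarith) hLAM0 hR0 hp1 hp2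
  unfold ERR
  obtain ⟨X, hXdef⟩ : ∃ X : ℝ, X = E1 p (1 + e) (2 ^ (4 * E + 3)) LAM R B d (p ^ E) *
    Real.sqrt R := ⟨_, rfl⟩
  rw [← hXdef] at hX ⊢
  have hX0 : 0 ≤ X := by
    rw [hXdef]
    unfold E1 Pool.Agent.H70.UN.KU
    have : (0 : ℝ) ≤ 1 + e - 1 := by linarith
    positivity
  obtain ⟨g, hg⟩ : ∃ g : ℝ, g = (2 : ℝ) ^ (-(γ * n)) := ⟨_, rfl⟩
  have hg0 : 0 < g := by rw [hg]; positivity
  have hg1 : g ≤ 1 := by
    rw [hg]
    apply Real.rpow_le_one_of_one_le_of_nonpos one_le_two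
    have : 0 ≤ γ * n := by positivity
    linarith
  rw [← hg]
  -- reals
  have hnr : (n : ℝ) ≤ b * (B + 1) := by exact_mod_cast hnB.le
  have hnr1 : (b : ℝ) * B ≤ n := by
    have : b * B ≤ n := by rw [mul_comm]; exact hBn
    exact_mod_cast this
  have hbB : (b : ℝ) ≤ B := by
    have : b ≤ B := by omega
    exact_mod_cast this
  have hB16 : (16 : ℝ) ≤ B := by
    have : 16 ≤ B := by omega
    exact_mod_cast this
  have hppos : (0 : ℝ) < p := by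
    have : 0 < p := lt_of_le_of_lt (Nat.zero_le _) hp1
    exact_mod_cast this
  have hp1' : (1 : ℝ) ≤ p := by
    have : 1 ≤ p := by
      have := Nat.one_le_two_pow (n := 4 * E)
      omega
    exact_mod_cast this
  have hpB : (p : ℝ) ^ B ≤ (2 : ℝ) ^ ((4 * (E : ℝ) + 1) * B) := by
    have q1 : (p : ℝ) ≤ 2 ^ (4 * E + 1) := by exact_mod_cast hp2
    calc (p : ℝ) ^ B ≤ (2 ^ (4 * E + 1)) ^ B := pow_le_pow_left₀ hppos.le q1 _
      _ = (2 : ℝ) ^ ((4 * (E : ℝ) + 1) * B) := by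
        rw [← pow_mul, ← Real.rpow_natCast]
        push_cast
        rfl
  obtain ⟨T, hT⟩ : ∃ T : ℝ, T = 11 * (M1 : ℝ) ^ 2 * (p : ℝ) ^ B := ⟨_, rfl⟩
  have hpB1 : (1 : ℝ) ≤ (p : ℝ) ^ B := one_le_pow₀ hp1'
  have hT1 : 1 ≤ T := by
    rw [hT]
    have : (1 : ℝ) ≤ (M1 : ℝ) ^ 2 := one_le_pow₀ hM11
    calc (1 : ℝ) ≤ 11 * 1 * 1 := by norm_num
      _ ≤ 11 * (M1 : ℝ) ^ 2 * (p : ℝ) ^ B := by gcongr
  have hTle : T ≤ 11 * ((2 : ℝ) ^ ((B : ℝ) / 8) * (2 : ℝ) ^ ((4 * (E : ℝ) + 1) * B)) := by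
    have q1 : (M1 : ℝ) ^ 2 ≤ (2 : ℝ) ^ ((B : ℝ) / 8) := by
      calc (M1 : ℝ) ^ 2 ≤ ((2 : ℝ) ^ ((B : ℝ) / 16)) ^ 2 :=
            pow_le_pow_left₀ (by linarith) hpoly 2
        _ = (2 : ℝ) ^ ((B : ℝ) / 8) := by
          rw [← Real.rpow_natCast, ← Real.rpow_mul (by norm_num)]
          congr 1
          push_cast
          ring
    rw [hT, mul_assoc]
    gcongr
  -- the first summand
  obtain ⟨F, hF⟩ : ∃ F : ℝ, F = (2 / (2 : ℝ) ^ (4 * E + 3)) ^ B := ⟨_, rfl⟩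
  have hF0 : 0 ≤ F := by rw [hF]; positivity
  have hF1 : F = (2 : ℝ) ^ (-((4 * (E : ℝ) + 2) * B)) := by
    have q1 : (2 / (2 : ℝ) ^ (4 * E + 3)) = (2 : ℝ) ^ (-(4 * (E : ℝ) + 2)) := by
      rw [Real.rpow_neg (by norm_num), pow_succ (2 : ℝ) (4 * E + 2), mul_comm, ← div_div,
        div_self (by norm_num : (2 : ℝ) ≠ 0), one_div, ← Real.rpow_natCast]
      push_cast
      rfl
    rw [hF, q1, ← Real.rpow_natCast, ← Real.rpow_mul (by norm_num)]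
    congr 1
    ring
  have hTF : T * F < g / 3 := by
    have q1 : T * F ≤ 11 * (2 : ℝ) ^ ((B : ℝ) / 8 - B) := by
      calc T * F ≤ 11 * ((2 : ℝ) ^ ((B : ℝ) / 8) * (2 : ℝ) ^ ((4 * (E : ℝ) + 1) * B)) * F :=
            mul_le_mul_of_nonneg_right hTle hF0
        _ = 11 * (2 : ℝ) ^ ((B : ℝ) / 8 - B) := by
          rw [hF1, mul_assoc, ← Real.rpow_add two_pos, ← Real.rpow_add two_pos]
          congr 2
          ring
    have q2 : (33 : ℝ) * (2 : ℝ) ^ ((B : ℝ) / 8 - B) < g := by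
      have q3 : (64 : ℝ) * (2 : ℝ) ^ ((B : ℝ) / 8 - B) ≤ g := by
        have q4 : (64 : ℝ) = (2 : ℝ) ^ (6 : ℝ) := by norm_num
        rw [q4, hg, ← Real.rpow_add two_pos]
        apply Real.rpow_le_rpow_of_exponent_le one_le_two
        have q5 : γ * n ≤ ε₁ / 16 * (B + 1) := by
          calc γ * n ≤ γ * (b * (B + 1)) := mul_le_mul_of_nonneg_left hnr hγ0.le
            _ = ε₁ / 16 * (B + 1) := by rw [← mul_assoc, hγb]
        have q6 : ε₁ / 16 * (B + 1) ≤ 1 / 64 * ((B : ℝ) + 1) :=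
          mul_le_mul_of_nonneg_right (by linarith) (by positivity)
        linarith
      have q7 : 0 < (2 : ℝ) ^ ((B : ℝ) / 8 - B) := by positivity
      linarith
    linarith
  -- the other summands
  obtain ⟨G, hG⟩ : ∃ G : ℝ, G = 6 * T := ⟨_, rfl⟩
  have hG1 : 1 ≤ G := by rw [hG]; linarith
  have hGle : G ≤ (2 : ℝ) ^ (7 + (B : ℝ) / 8 + (4 * (E : ℝ) + 1) * B) := by
    have q4 : (128 : ℝ) = (2 : ℝ) ^ (7 : ℝ) := by norm_num
    rw [hG, Real.rpow_add two_pos, Real.rpow_add two_pos, ← q4]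
    have q7 : 0 < (2 : ℝ) ^ ((B : ℝ) / 8) * (2 : ℝ) ^ ((4 * (E : ℝ) + 1) * B) := by positivity
    rw [mul_assoc]
    linarith
  have hGX : G ^ 2 * X ≤ g ^ 2 := by
    rw [hg]
    exact keyU E B b n j M1 d C ε ε₁ e γ R LAM G X hE33r hεE hε₁0 hε₁ε hε₁4 hB16 hbB hbr hnr1
      hnr he he0 hj hjE hγ1 hpoly hR hR0 hLAM hLAM0 hd (by omega) hX0 hX hG1 hGle
  have hGs : G * Real.sqrt X ≤ g := by
    have q1 : G * Real.sqrt X = Real.sqrt (G ^ 2 * X) := by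
      rw [Real.sqrt_mul (sq_nonneg G), Real.sqrt_sq (by linarith)]
    rw [q1]
    calc Real.sqrt (G ^ 2 * X) ≤ Real.sqrt (g ^ 2) := Real.sqrt_le_sqrt hGX
      _ = g := Real.sqrt_sq hg0.le
  have hGX1 : G * X ≤ g := by
    calc G * X ≤ G * (G * X) := le_mul_of_one_le_left (by positivity) hG1
      _ = G ^ 2 * X := by ring
      _ ≤ g ^ 2 := hGX
      _ ≤ g := by
        rw [sq]
        exact mul_le_of_le_one_left hg0.le hg1
  have hTS : T * (F + 2 * Real.sqrt X + X) < g := by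
    have q1 : T * (F + 2 * Real.sqrt X + X) = T * F + G * Real.sqrt X / 3 + G * X / 6 := by
      rw [hG]; ring
    rw [q1]
    linarith
  rw [← hF]
  refine lt_of_le_of_lt ?_ hTS
  have hS0 : 0 ≤ F + 2 * Real.sqrt X + X := by positivity
  apply mul_le_mul_of_nonneg_right _ hS0
  rw [hT]
  have hKB0 : (0 : ℝ) ≤ ((K * B : ℕ) : ℝ) := Nat.cast_nonneg _
  calc 11 * (((K * B : ℕ) : ℝ) + 1) * (p : ℝ) ^ B * (2 * ((K * B : ℕ) : ℝ) + 1) =
        11 * ((((K * B : ℕ) : ℝ) + 1) * (2 * ((K * B : ℕ) : ℝ) + 1)) * (p : ℝ) ^ B := by ring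
    _ ≤ 11 * (M1 : ℝ) ^ 2 * (p : ℝ) ^ B := by
      have q1 : (((K * B : ℕ) : ℝ) + 1) * (2 * ((K * B : ℕ) : ℝ) + 1) ≤ (M1 : ℝ) ^ 2 := by
        rw [hM1r, sq]
        apply mul_le_mul <;> linarith
      gcongr

end Pool.Agent.H20.UV
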