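import Pool.Agent.H91.UV.TargetsB

/-! # Unified programs: choice of the parameters (row PARMU, first part, helper20) -/

namespace Pool.Agent.H20.UV

open Finset Matrix Pool.Agent.H91.UV
open Pool.Agent.H1.LP (Clause viol supp ip kk)
open Pool.Agent.H70.UN (PosFam ERR E1 T_FAMU T_LASF)

/-- the exponents -/
lemma expoU (E B b n ε₁ C e j γ : ℝ) (hE : 33 ≤ E) (hεE : 86 ≤ ε₁ * E) (hε0 : 0 < ε₁)
    (hε1 : ε₁ ≤ 1 / 4) (hB : 16 ≤ B) (hbB : b ≤ B) (hb : b = (4 * E + 1) * (E + 1))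
    (hn1 : b * B ≤ n) (hn : n ≤ b * (B + 1)) (he0 : 0 < e) (hC : 0 ≤ C)
    (hCe : (C + 2) * e ≤ ε₁ / 8) (hj : j ≤ E) (hγ : γ ≤ ε₁ / 16) :
    2 * (7 + B / 8 + (4 * E + 1) * B) + ((14 * E + 9) * B + j * B +
      e * (1 + B / 8 + (C + 1) * n) + (B / 32 + (1 - ε₁) * n / 2) + ((4 * E + 1) * 4 * B + B / 2) -
      2 * E * E * B * (1 - e)) ≤ 2 * (-(γ * n)) := by
  have hB0 : 0 ≤ B := by linarith
  have hE0 : 0 ≤ E := by linarith
  have hb0 : 0 ≤ b := by rw [hb]; positivity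
  have hn0 : 0 ≤ n := le_trans (mul_nonneg hb0 hB0) hn1
  have he1 : e ≤ 1 / 64 := by nlinarith
  have hbe : b = 4 * (E * E) + 5 * E + 1 := by rw [hb]; ring
  have a1 : n ≤ (b + 1) * B := by
    calc n ≤ b * (B + 1) := hn
      _ = b * B + b := by ring
      _ ≤ b * B + B := by linarith
      _ = (b + 1) * B := by ring
  have a2 : (b + 1) * B = 4 * (E * E * B) + 5 * (E * B) + 2 * B := by rw [hbe]; ring
  have a3 : 4 * (E * E * B) ≤ n := by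
    refine le_trans ?_ hn1
    rw [hbe]
    nlinarith [mul_nonneg hE0 hB0]
  have a4 : 4 * (E * E * B) * e ≤ n * e := mul_le_mul_of_nonneg_right a3 he0.le
  have a5 : (C + 2) * e * n ≤ ε₁ / 8 * n := mul_le_mul_of_nonneg_right hCe hn0
  have a6 : γ * n ≤ ε₁ / 16 * n := mul_le_mul_of_nonneg_right hγ hn0
  have a7 : 344 * (E * B) ≤ ε₁ * n := by
    have q1 : 86 * (4 * (E * B)) ≤ ε₁ * E * (4 * (E * B)) :=
      mul_le_mul_of_nonneg_right hεE (by positivity)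
    have q2 : ε₁ * (4 * (E * E * B)) ≤ ε₁ * n := mul_le_mul_of_nonneg_left a3 hε0.le
    have q3 : ε₁ * E * (4 * (E * B)) = ε₁ * (4 * (E * E * B)) := by ring
    linarith
  have a8 : j * B ≤ E * B := mul_le_mul_of_nonneg_right hj hB0
  have a9 : 33 * B ≤ E * B := mul_le_mul_of_nonneg_right hE hB0
  have a10 : e * B ≤ 1 / 64 * B := mul_le_mul_of_nonneg_right he1 hB0
  have e1 : e * (1 + B / 8 + (C + 1) * n) = e + e * B / 8 + (C + 2) * e * n - n * e := by ring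
  have e2 : 2 * E * E * B * (1 - e) = 2 * (E * E * B) - 4 * (E * E * B) * e / 2 := by ring
  have e3 : (1 - ε₁) * n / 2 = n / 2 - ε₁ * n / 2 := by ring
  have e4 : (14 * E + 9) * B = 14 * (E * B) + 9 * B := by ring
  have e5 : (4 * E + 1) * B = 4 * (E * B) + B := by ring
  have e6 : (4 * E + 1) * 4 * B = 16 * (E * B) + 4 * B := by ring
  rw [e1, e2, e3, e4, e5, e6]
  have hne : 0 ≤ n * e := mul_nonneg hn0 he0.le
  linarith

/-- the exponential estimate of the main error term -/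
lemma keyU (E B b n j M1 d : ℕ) (C ε ε₁ e γ R LAM G X : ℝ) (hE33r : (33 : ℝ) ≤ E)
    (hεE : 86 ≤ ε₁ * E) (hε₁0 : 0 < ε₁) (hε₁ε : ε₁ ≤ ε) (hε₁4 : ε₁ ≤ 1 / 4)
    (hB16 : (16 : ℝ) ≤ B) (hbB : (b : ℝ) ≤ B) (hbr : (b : ℝ) = (4 * E + 1) * (E + 1))
    (hnr1 : (b : ℝ) * B ≤ n) (hnr : (n : ℝ) ≤ b * (B + 1)) (he : e = (2 : ℝ)⁻¹ ^ j)
    (he0 : 0 < e) (hj : (|C| + 2) * e ≤ ε₁ / 8) (hjE : j ≤ E) (hγ1 : γ ≤ ε₁ / 16)
    (hpoly : (M1 : ℝ) ≤ (2 : ℝ) ^ ((B : ℝ) / 16))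
    (hR : R = (M1 : ℝ) * (2 : ℝ) ^ ((1 - ε) * n)) (hR0 : 0 < R)
    (hLAM : LAM = 2 * (M1 : ℝ) * (2 : ℝ) ^ (|C| * n) * (2 : ℝ) ^ (γ * n)) (hLAM0 : 0 < LAM)
    (hd : d = B - 8 * (B / E) - kk E) (hkB : (4 * E + 1) * E * kk E ≤ B) (hX0 : 0 ≤ X)
    (hX : X ≤ 2 ^ ((14 * E + 9) * B) * (1 / e) ^ B * (LAM * R) ^ e * Real.sqrt R *
        Real.sqrt (2 ^ ((4 * E + 1) * E * (B - d))) *
        (2 : ℝ) ^ (-(((4 * E * E * B : ℕ) : ℝ) / (2 * (1 + e)))))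
    (hG1 : 1 ≤ G) (hGle : G ≤ (2 : ℝ) ^ (7 + (B : ℝ) / 8 + (4 * (E : ℝ) + 1) * B)) :
    G ^ 2 * X ≤ ((2 : ℝ) ^ (-(γ * n))) ^ 2 := by
  have f0 : G ^ 2 ≤ (2 : ℝ) ^ (2 * (7 + (B : ℝ) / 8 + (4 * (E : ℝ) + 1) * B)) := by
    calc G ^ 2 ≤ ((2 : ℝ) ^ (7 + (B : ℝ) / 8 + (4 * (E : ℝ) + 1) * B)) ^ 2 :=
          pow_le_pow_left₀ (by linarith) hGle 2
      _ = (2 : ℝ) ^ (2 * (7 + (B : ℝ) / 8 + (4 * (E : ℝ) + 1) * B)) := by
        rw [← Real.rpow_natCast, ← Real.rpow_mul (by norm_num)]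
        congr 1
        push_cast
        ring
  have f1 : (2 : ℝ) ^ ((14 * E + 9) * B) = (2 : ℝ) ^ ((14 * (E : ℝ) + 9) * B) := by
    rw [← Real.rpow_natCast]
    push_cast
    rfl
  have f2 : (1 / e) ^ B = (2 : ℝ) ^ ((j : ℝ) * B) := by
    have : 1 / e = (2 : ℝ) ^ j := by
      rw [he, inv_pow, one_div, inv_inv]
    rw [this, ← pow_mul, ← Real.rpow_natCast]
    push_cast
    rfl
  have hRle : R ≤ (2 : ℝ) ^ ((B : ℝ) / 16 + (1 - ε₁) * n) := by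
    rw [hR, Real.rpow_add two_pos]
    apply mul_le_mul hpoly _ (by positivity) (by positivity)
    apply Real.rpow_le_rpow_of_exponent_le one_le_two
    exact mul_le_mul_of_nonneg_right (by linarith) (Nat.cast_nonneg _)
  have hLle : LAM ≤ (2 : ℝ) ^ (1 + (B : ℝ) / 16 + |C| * n + γ * n) := by
    rw [hLAM, Real.rpow_add two_pos, Real.rpow_add two_pos, Real.rpow_add two_pos,
      Real.rpow_one]
    gcongr
  have f3 : (LAM * R) ^ e ≤ (2 : ℝ) ^ (e * (1 + (B : ℝ) / 8 + (|C| + 1) * n)) := by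
    rw [mul_comm e, Real.rpow_mul (by norm_num)]
    apply Real.rpow_le_rpow (by positivity) _ he0.le
    calc LAM * R ≤ (2 : ℝ) ^ (1 + (B : ℝ) / 16 + |C| * n + γ * n) *
          (2 : ℝ) ^ ((B : ℝ) / 16 + (1 - ε₁) * n) :=
          mul_le_mul hLle hRle hR0.le (by positivity)
      _ = (2 : ℝ) ^ (1 + (B : ℝ) / 16 + |C| * n + γ * n + ((B : ℝ) / 16 + (1 - ε₁) * n)) := by
        rw [← Real.rpow_add two_pos]
      _ ≤ (2 : ℝ) ^ (1 + (B : ℝ) / 8 + (|C| + 1) * n) := by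
        apply Real.rpow_le_rpow_of_exponent_le one_le_two
        have q1 : γ * n ≤ ε₁ * n :=
          mul_le_mul_of_nonneg_right (by linarith) (Nat.cast_nonneg _)
        have q2 : (1 - ε₁) * (n : ℝ) = n - ε₁ * n := by ring
        have q3 : (|C| + 1) * (n : ℝ) = |C| * n + n := by ring
        rw [q2, q3]
        linarith
  have f4 : Real.sqrt R ≤ (2 : ℝ) ^ ((B : ℝ) / 32 + (1 - ε₁) * n / 2) := by
    calc Real.sqrt R ≤ Real.sqrt ((2 : ℝ) ^ ((B : ℝ) / 16 + (1 - ε₁) * n)) :=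
          Real.sqrt_le_sqrt hRle
      _ = (2 : ℝ) ^ ((B : ℝ) / 32 + (1 - ε₁) * n / 2) := by
        rw [Real.sqrt_eq_rpow, ← Real.rpow_mul (by norm_num)]
        congr 1
        ring
  have f5 : Real.sqrt (2 ^ ((4 * E + 1) * E * (B - d))) ≤
      (2 : ℝ) ^ ((4 * (E : ℝ) + 1) * 4 * B + (B : ℝ) / 2) := by
    have q1 : E * (B - d) ≤ 8 * B + E * kk E := by
      have d1 : E * (B / E) ≤ B := Nat.mul_div_le B E
      have d2 : B - d ≤ 8 * (B / E) + kk E := by omega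
      calc E * (B - d) ≤ E * (8 * (B / E) + kk E) := Nat.mul_le_mul_left _ d2
        _ = 8 * (E * (B / E)) + E * kk E := by ring
        _ ≤ 8 * B + E * kk E := by omega
    have q2 : (4 * E + 1) * E * (B - d) ≤ (4 * E + 1) * (8 * B) + B := by
      calc (4 * E + 1) * E * (B - d) = (4 * E + 1) * (E * (B - d)) := by ring
        _ ≤ (4 * E + 1) * (8 * B + E * kk E) := Nat.mul_le_mul_left _ q1
        _ = (4 * E + 1) * (8 * B) + (4 * E + 1) * E * kk E := by ring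
        _ ≤ (4 * E + 1) * (8 * B) + B := by omega
    calc Real.sqrt (2 ^ ((4 * E + 1) * E * (B - d))) ≤
          Real.sqrt (2 ^ ((4 * E + 1) * (8 * B) + B)) :=
          Real.sqrt_le_sqrt (pow_le_pow_right₀ one_le_two q2)
      _ = (2 : ℝ) ^ ((4 * (E : ℝ) + 1) * 4 * B + (B : ℝ) / 2) := by
        rw [Real.sqrt_eq_rpow, ← Real.rpow_natCast, ← Real.rpow_mul (by norm_num)]
        congr 1
        push_cast
        ring
  have f6 : (2 : ℝ) ^ (-(((4 * E * E * B : ℕ) : ℝ) / (2 * (1 + e)))) ≤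
      (2 : ℝ) ^ (-(2 * (E : ℝ) * E * B * (1 - e))) := by
    apply Real.rpow_le_rpow_of_exponent_le one_le_two
    apply neg_le_neg
    rw [le_div_iff₀ (by positivity)]
    push_cast
    have q2 : 0 ≤ 4 * (E : ℝ) * E * B * e ^ 2 := by positivity
    have q3 : 2 * (E : ℝ) * E * B * (1 - e) * (2 * (1 + e)) =
      4 * (E : ℝ) * E * B - 4 * (E : ℝ) * E * B * e ^ 2 := by ring
    rw [q3]
    linarith
  have hexp := expoU (E : ℝ) B b n ε₁ |C| e j γ hE33r hεE hε₁0 hε₁4 hB16 hbB hbr hnr1 hnr he0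
    (abs_nonneg C) hj (by exact_mod_cast hjE) hγ1
  calc G ^ 2 * X ≤ (2 : ℝ) ^ (2 * (7 + (B : ℝ) / 8 + (4 * (E : ℝ) + 1) * B)) *
        ((2 : ℝ) ^ ((14 * (E : ℝ) + 9) * B) * (2 : ℝ) ^ ((j : ℝ) * B) *
          (2 : ℝ) ^ (e * (1 + (B : ℝ) / 8 + (|C| + 1) * n)) *
          (2 : ℝ) ^ ((B : ℝ) / 32 + (1 - ε₁) * n / 2) *
          (2 : ℝ) ^ ((4 * (E : ℝ) + 1) * 4 * B + (B : ℝ) / 2) *
          (2 : ℝ) ^ (-(2 * (E : ℝ) * E * B * (1 - e)))) := by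
        apply mul_le_mul f0 _ hX0 (by positivity)
        refine hX.trans ?_
        rw [f1, f2]
        gcongr
    _ = (2 : ℝ) ^ (2 * (7 + (B : ℝ) / 8 + (4 * E + 1) * B) + ((14 * E + 9) * B + j * B +
          e * (1 + B / 8 + (|C| + 1) * n) + (B / 32 + (1 - ε₁) * n / 2) +
          ((4 * E + 1) * 4 * B + B / 2) - 2 * E * E * B * (1 - e))) := by
        rw [← Real.rpow_add two_pos, ← Real.rpow_add two_pos, ← Real.rpow_add two_pos,
          ← Real.rpow_add two_pos, ← Real.rpow_add two_pos, ← Real.rpow_add two_pos]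
        congr 1
    _ ≤ (2 : ℝ) ^ (2 * (-(γ * n))) := Real.rpow_le_rpow_of_exponent_le one_le_two hexp
    _ = ((2 : ℝ) ^ (-(γ * n))) ^ 2 := by
        rw [← Real.rpow_natCast, ← Real.rpow_mul (by norm_num)]
        congr 1
        push_cast
        ring

end Pool.Agent.H20.UV
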